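import Pool.Agent.Results.MP_493793_nt.NearPowerFunctions

/-!
# The exponent pair bound for almost every translate, at all scales at once and uniformly in polynomials

Let `ε > 0` and let `d` be a natural number. There is `A` such that for all `κ > A` which are not integers and all `β > 0`,
for almost every `u ∈ [0, 1]`: for all large `N`, all `N ≤ N1 ≤ N2 ≤ 2N` and ALL real polynomials `Q` of degree at most `d`
the sum of `e(β (n + u) ^ κ + Q(n))` over `N1 ≤ n ≤ N2` is at most `(N2 - N1 + 1) ^ (1/2) N ^ ε`. The same for all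
sequences of functions which are close to power functions with sufficiently large amplitudes.
-/

set_option autoImplicit false

open MeasureTheory Filter

open scoped ENNReal

namespace Pool.Agent.Results.MP_493793_nt.AlmostEveryTranslate

/-- The function `f = φ 0` is on `[N, 2N + 1]` close to a function with the derivative `T x^(α - 1)`, together with its first
`P + 1` derivatives `φ 1`, `φ 2`, ..., up to the factor `c`. -/
def Close (P : ℕ) (c α T : ℝ) (N : ℕ) (φ : ℕ → ℝ → ℝ) : Prop :=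
  (∀ i ≤ P, ∀ x ∈ Set.Icc (N : ℝ) (2 * N + 1), HasDerivAt (φ i) (φ (i + 1) x) x) ∧
  (∀ p ≤ P, ∀ x ∈ Set.Icc (N : ℝ) (2 * N + 1),
    |φ (p + 1) x - T * (∏ i ∈ Finset.range p, (α - 1 - i)) * x ^ (α - 1 - p)| ≤ c * (T * x ^ (α - 1 - p)))

/-- `e(x) = exp(2πix)` -/
noncomputable def e (x : ℝ) : ℂ := Complex.exp (2 * (Real.pi : ℂ) * Complex.I * (x : ℂ))

/-- the square root bound for the sums of `e(F(n) + Q(n))` over the subintervals of `[N, 2N]`, for all real polynomials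
`Q` of degree at most `d` -/
def Bound (d N : ℕ) (ε : ℝ) (F : ℕ → ℝ) : Prop :=
  ∀ Q : Polynomial ℝ, Q.natDegree ≤ d → ∀ N1 N2 : ℕ, N ≤ N1 → N1 ≤ N2 → N2 ≤ 2 * N →
    ‖∑ n ∈ Finset.Icc N1 N2, e (F n + Q.eval (n : ℝ))‖ ≤ ((N2 : ℝ) - N1 + 1) ^ (1 / 2 : ℝ) * (N : ℝ) ^ ε

lemma pow_deriv (β κ : ℝ) (i : ℕ) {x : ℝ} (hx : 0 < x) :
    HasDerivAt (fun x : ℝ => β * (∏ j ∈ Finset.range i, (κ - j)) * x ^ (κ - i))
      (β * (∏ j ∈ Finset.range (i + 1), (κ - j)) * x ^ (κ - (i + 1 : ℕ))) x := by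
  have h1 := (Real.hasDerivAt_rpow_const (x := x) (p := κ - i) (Or.inl hx.ne')).const_mul
    (β * (∏ j ∈ Finset.range i, (κ - j)))
  refine h1.congr_deriv ?_
  rw [Finset.prod_range_succ, show κ - ((i + 1 : ℕ) : ℝ) = κ - i - 1 by push_cast; ring]
  ring

/-- **Theorem.** Let `ε > 0` and let `B ≥ 2` and `d` be natural numbers. There are `A`, `C`, `P` such that: (1) for every real
`α` which is not a positive integer there is `c > 0` such that for all `T_N` with `T_N N ^ α ≥ N ^ A` and all functions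
`f_N = φ_N 0` which are close to a function with the derivative `T_N x^(α - 1)` on `[N, 2N + 1]`, up to the factor
`c / N ^ C`, and for `g` with the derivative `x^(α - 1)` for `x > 0`: for almost every `u ∈ [0, 1]`, for all large `N`, ALL
`t ≥ 0` with `t N ^ α ≤ N ^ B`, ALL real polynomials `Q` of degree at most `d` and all `N ≤ N1 ≤ N2 ≤ 2N` the sum of
`e(f_N(n + u) + t g(n + u) + Q(n))` over `N1 ≤ n ≤ N2` is at most `(N2 - N1 + 1)^(1/2) N^ε`. (2) For every countable set `U`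
of pairs of real numbers, for almost every `u ∈ [0, 1]`, for all `(κ, β) ∈ U` with `κ > A`, `κ` not an integer, `β > 0`, and
all large `N`: ALL real polynomials `Q` of degree at most `d` and all `N ≤ N1 ≤ N2 ≤ 2N` satisfy this bound for the sums of
`e(β (n + u) ^ κ + Q(n))`. -/
theorem result (ε : ℝ) (hε : 0 < ε) (B d : ℕ) (hB : 2 ≤ B) :
    ∃ A C P : ℕ,
      (∀ α : ℝ, (∀ m : ℕ, α ≠ m + 1) → ∃ c : ℝ, 0 < c ∧ ∀ (T : ℕ → ℝ) (φ : ℕ → ℕ → ℝ → ℝ) (g : ℝ → ℝ),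
        (∀ᶠ N : ℕ in atTop, (N : ℝ) ^ A ≤ T N * (N : ℝ) ^ α ∧ Close P (c / (N : ℝ) ^ C) α (T N) N (φ N)) →
        (∀ x : ℝ, 0 < x → HasDerivAt g (x ^ (α - 1)) x) →
        ∀ᵐ u : ℝ, u ∈ Set.Icc (0 : ℝ) 1 → ∀ᶠ N : ℕ in atTop, ∀ t : ℝ, 0 ≤ t → t * (N : ℝ) ^ α ≤ (N : ℝ) ^ B →
          Bound d N ε (fun n => φ N 0 ((n : ℝ) + u) + t * g ((n : ℝ) + u))) ∧
      (∀ U : Set (ℝ × ℝ), U.Countable → ∀ᵐ u : ℝ, u ∈ Set.Icc (0 : ℝ) 1 → ∀ q ∈ U, (A : ℝ) < q.1 →
        (∀ m : ℕ, q.1 ≠ m + 1) → 0 < q.2 → ∀ᶠ N : ℕ in atTop, Bound d N ε (fun n => q.2 * ((n : ℝ) + u) ^ q.1)) := by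
  obtain ⟨A, C, P, h⟩ := Pool.Agent.Results.MP_493793_nt.NearPowerFunctions.result ε hε B d
  have part1 : ∀ α : ℝ, (∀ m : ℕ, α ≠ m + 1) → ∃ c : ℝ, 0 < c ∧ ∀ (T : ℕ → ℝ) (φ : ℕ → ℕ → ℝ → ℝ) (g : ℝ → ℝ),
        (∀ᶠ N : ℕ in atTop, (N : ℝ) ^ A ≤ T N * (N : ℝ) ^ α ∧ Close P (c / (N : ℝ) ^ C) α (T N) N (φ N)) →
        (∀ x : ℝ, 0 < x → HasDerivAt g (x ^ (α - 1)) x) →
        ∀ᵐ u : ℝ, u ∈ Set.Icc (0 : ℝ) 1 → ∀ᶠ N : ℕ in atTop, ∀ t : ℝ, 0 ≤ t → t * (N : ℝ) ^ α ≤ (N : ℝ) ^ B →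
          Bound d N ε (fun n => φ N 0 ((n : ℝ) + u) + t * g ((n : ℝ) + u)) := by
    intro α hα
    obtain ⟨c0, K, hc0, hK⟩ := h α hα
    refine ⟨c0, hc0, fun T φ g hT hg => ?_⟩
    obtain ⟨N₀, hN₀⟩ := eventually_atTop.1 hT
    set W : ℕ → Set ℝ := fun N => if max N₀ 1 ≤ N then {u : ℝ | u ∈ Set.Icc (0 : ℝ) 1 ∧ ∃ t : ℝ, 0 ≤ t ∧
      t * (N : ℝ) ^ α ≤ (N : ℝ) ^ B ∧ ∃ Q : Polynomial ℝ, Q.natDegree ≤ d ∧ ∃ N1 N2 : ℕ, N ≤ N1 ∧ N1 ≤ N2 ∧ N2 ≤ 2 * N ∧
        ((N2 : ℝ) - N1 + 1) ^ (1 / 2 : ℝ) * (N : ℝ) ^ ε < ‖∑ n ∈ Finset.Icc N1 N2,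
          Complex.exp (2 * (Real.pi : ℂ) * Complex.I *
            ((φ N 0 ((n : ℝ) + u) + t * g ((n : ℝ) + u) + Q.eval (n : ℝ) : ℝ) : ℂ))‖} else ∅ with hW
    have hvol : ∀ N, volume (W N) ≤ ENNReal.ofReal (|K| * ((N : ℝ) ^ 2)⁻¹) := by
      intro N
      rw [hW]
      simp only
      split_ifs with hN
      · obtain ⟨h1, h2, h3⟩ := hN₀ N ((le_max_left _ _).trans hN)
        have hN1 : 1 ≤ N := (le_max_right _ _).trans hN
        have hNr : (1 : ℝ) ≤ N := by exact_mod_cast hN1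
        refine (hK N hN1 (T N) h1 (φ N) h2 h3 g hg).trans (ENNReal.ofReal_le_ofReal ?_)
        rw [div_eq_mul_inv]
        have h4 : ((N : ℝ) ^ B)⁻¹ ≤ ((N : ℝ) ^ 2)⁻¹ := by
          apply inv_anti₀ (by positivity)
          exact pow_le_pow_right₀ hNr hB
        calc K * ((N : ℝ) ^ B)⁻¹ ≤ |K| * ((N : ℝ) ^ B)⁻¹ := mul_le_mul_of_nonneg_right (le_abs_self K) (by positivity)
          _ ≤ |K| * ((N : ℝ) ^ 2)⁻¹ := mul_le_mul_of_nonneg_left h4 (abs_nonneg K)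
      · simp
    have hsum : ∑' N, volume (W N) ≠ ∞ := by
      have h1 : Summable (fun N : ℕ => |K| * ((N : ℝ) ^ 2)⁻¹) := (Real.summable_nat_pow_inv.2 (by norm_num)).mul_left _
      have h2 : ∑' N : ℕ, ENNReal.ofReal (|K| * ((N : ℝ) ^ 2)⁻¹) ≠ ∞ := by
        rw [← ENNReal.ofReal_tsum_of_nonneg (fun N => by positivity) h1]
        exact ENNReal.ofReal_ne_top
      exact ne_top_of_le_ne_top h2 (ENNReal.tsum_le_tsum hvol)
    filter_upwards [ae_eventually_notMem hsum] with u hu hu01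
    filter_upwards [hu, eventually_ge_atTop (max N₀ 1)] with N hN hN1 t ht0 ht Q hQ N1 N2 g1 g2 g3
    by_contra hcon
    push Not at hcon
    apply hN
    rw [hW]
    simp only [hN1, if_true]
    exact ⟨hu01, t, ht0, ht, Q, hQ, N1, N2, g1, g2, g3, hcon⟩
  refine ⟨A, C, P, part1, fun U hU => ?_⟩
  have hall : ∀ᵐ u : ℝ, ∀ q ∈ U, u ∈ Set.Icc (0 : ℝ) 1 → (A : ℝ) < q.1 →
        (∀ m : ℕ, q.1 ≠ m + 1) → 0 < q.2 → ∀ᶠ N : ℕ in atTop, Bound d N ε (fun n => q.2 * ((n : ℝ) + u) ^ q.1) := by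
    rw [ae_ball_iff hU]
    rintro ⟨κ, β⟩ _
    by_cases hq : (A : ℝ) < κ ∧ (∀ m : ℕ, κ ≠ m + 1) ∧ 0 < β
    swap
    · exact Eventually.of_forall fun u _ g1 g2 g3 => absurd ⟨g1, g2, g3⟩ hq
    obtain ⟨hκ, hκ', hβ⟩ := hq
    have hκ0 : 0 < κ := lt_of_le_of_lt (Nat.cast_nonneg A) hκ
    obtain ⟨c, hc, hpart⟩ := part1 κ hκ'
    have h1 := hpart (fun _ => β * κ) (fun _ i x => β * (∏ j ∈ Finset.range i, (κ - j)) * x ^ (κ - i))
      (fun x => x ^ κ / κ) (by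
        have hlarge : Tendsto (fun N : ℕ => β * κ * (N : ℝ) ^ (κ - A)) atTop atTop :=
          Tendsto.const_mul_atTop (by positivity)
            ((tendsto_rpow_atTop (by linarith)).comp tendsto_natCast_atTop_atTop)
        filter_upwards [hlarge.eventually_ge_atTop 1, eventually_ge_atTop 1] with N hN hN1
        have hNp : (0 : ℝ) < N := by exact_mod_cast hN1
        refine ⟨?_, ?_, ?_⟩
        · have h2 : (N : ℝ) ^ κ = (N : ℝ) ^ (κ - A) * (N : ℝ) ^ A := by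
            rw [← Real.rpow_natCast (N : ℝ) A, ← Real.rpow_add hNp]
            congr 1
            ring
          rw [h2, ← mul_assoc]
          have h3 : (0 : ℝ) < (N : ℝ) ^ A := by positivity
          nlinarith
        · intro i _ x hx
          have hx0 : 0 < x := lt_of_lt_of_le hNp hx.1
          exact pow_deriv β κ i hx0
        · intro p _ x hx
          have hx0 : 0 < x := lt_of_lt_of_le hNp hx.1
          have h2 : β * (∏ j ∈ Finset.range (p + 1), (κ - j)) * x ^ (κ - ((p + 1 : ℕ) : ℝ)) -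
              β * κ * (∏ i ∈ Finset.range p, (κ - 1 - i)) * x ^ (κ - 1 - p) = 0 := by
            rw [Finset.prod_range_succ', show κ - ((p + 1 : ℕ) : ℝ) = κ - 1 - p by push_cast; ring]
            have h3 : ∏ k ∈ Finset.range p, (κ - ((k + 1 : ℕ) : ℝ)) = ∏ i ∈ Finset.range p, (κ - 1 - (i : ℝ)) :=
              Finset.prod_congr rfl fun k _ => by push_cast; ring
            rw [h3]
            push_cast
            ring
          rw [h2, abs_zero]
          positivity)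
      (by
        intro x hx
        have h2 := (Real.hasDerivAt_rpow_const (x := x) (p := κ) (Or.inl hx.ne')).div_const κ
        refine h2.congr_deriv ?_
        field_simp)
    filter_upwards [h1] with u hu hu01 _ _ _
    filter_upwards [hu hu01, eventually_ge_atTop 1] with N hN hN1
    have hNp : (0 : ℝ) < N := by exact_mod_cast hN1
    have h3 := hN 0 le_rfl (by rw [zero_mul]; positivity)
    refine fun Q hQ N1 N2 g1 g2 g3 => le_trans (le_of_eq ?_) (h3 Q hQ N1 N2 g1 g2 g3)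
    congr 1
    refine Finset.sum_congr rfl fun n _ => ?_
    simp
  filter_upwards [hall] with u hu hu01 q hq g1 g2 g3
  exact hu q hq hu01 g1 g2 g3

end Pool.Agent.Results.MP_493793_nt.AlmostEveryTranslate
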