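import Pool.Agent.Y933.KI.General

/-!
# The exponent pair (0, 0) for almost all translates of every admissible function

Source: the theorem `general` of `Pool.Agent.Y933.KI.General` of the starting library, which no starting
result states.
-/

set_option autoImplicit false

namespace Pool.Agent.Results.MP_493793_nt.TranslatesOfAdmissible

open MeasureTheory Set

/-- `f` is smooth on `[N, 2N]` with `|f^(j)(x)| ≥ c_j F / N^j` there for all `j ≥ 0`; the functions which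
are admissible at scale `N` with parameter `F` in the sense of the problem have this property. -/
def Adm (c : ℕ → ℝ) (N F : ℝ) (f : ℝ → ℝ) : Prop :=
  ContDiffOn ℝ (⊤ : ℕ∞) f (Icc N (2 * N)) ∧
    ∀ j : ℕ, ∀ x ∈ Icc N (2 * N), c j * F / N ^ j ≤ |iteratedDerivWithin j f (Icc N (2 * N)) x|

/-- The set of the translations `u` in `[a, b]` for which some sum of `e(f(n + u) + r(n))` over an interval
of integers `N1 ≤ n ≤ N2` with `N ≤ N1`, `N2 + u ≤ 2 N` is larger than `N^(1/2) V` in absolute value. -/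
def Bad (N : ℝ) (f : ℝ → ℝ) (r : ℕ → ℝ) (a b V : ℝ) : Set ℝ :=
  {u : ℝ | u ∈ Icc a b ∧ ∃ N1 N2 : ℕ, N ≤ N1 ∧ (N2 : ℝ) + u ≤ 2 * N ∧
    N ^ (1 / 2 : ℝ) * V < ‖∑ n ∈ Finset.Icc N1 N2,
      Complex.exp (2 * (Real.pi : ℂ) * Complex.I * ((f ((n : ℝ) + u) + r n : ℝ) : ℂ))‖}

/-- Let the positive constants `c_j` be given. For all `N ≥ 2`, `F ≥ N`, all admissible `f`, all real
sequences `r` and all `0 ≤ a ≤ b` the set of the translations `u ∈ [a, b]` for which a sum of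
`e(f(n + u) + r(n))` over some interval of integers is larger than `N^(1/2) V` has measure at most
`K (1 + log N)³ ((b - a) + N² / F) / V²`, `K` depending only on the `c_j`; for every `ε > 0` the bound
`N^(1/2) F^ε` of the exponent pair `(0, 0)` holds for all translations `u ∈ [a, b]` outside a set of
measure at most `K' F^(-ε) ((b - a) + N² / F)`, `K'` depending only on `ε` and the `c_j`. -/
theorem result (c : ℕ → ℝ) (hc : ∀ j, 0 < c j) :
    (∃ K : ℝ, ∀ (N F : ℝ) (f : ℝ → ℝ), 2 ≤ N → N ≤ F → Adm c N F f →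
      ∀ (r : ℕ → ℝ) (a b V : ℝ), 0 ≤ a → a ≤ b → 0 < V →
        volume (Bad N f r a b V) ≤
          ENNReal.ofReal (K * (1 + Real.log N) ^ 3 * ((b - a) + N ^ 2 / F) / V ^ 2)) ∧
    ∀ ε : ℝ, 0 < ε → ∃ K : ℝ, ∀ (N F : ℝ) (f : ℝ → ℝ), 2 ≤ N → N ≤ F → Adm c N F f →
      ∀ (r : ℕ → ℝ) (a b : ℝ), 0 ≤ a → a ≤ b →
        volume (Bad N f r a b (F ^ ε)) ≤ ENNReal.ofReal (K * F ^ (-ε) * ((b - a) + N ^ 2 / F)) := by
  obtain ⟨K, hK⟩ := Pool.Agent.Y933.KI.general c hc
  have h1 : ∀ (N F : ℝ) (f : ℝ → ℝ), 2 ≤ N → N ≤ F → Adm c N F f →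
      ∀ (r : ℕ → ℝ) (a b V : ℝ), 0 ≤ a → a ≤ b → 0 < V →
        volume (Bad N f r a b V) ≤
          ENNReal.ofReal (K * (1 + Real.log N) ^ 3 * ((b - a) + N ^ 2 / F) / V ^ 2) :=
    fun N F f hN hF hf r a b V ha hab hV => hK N F f hN hF hf.1 hf.2 r a b V ha hab hV
  refine ⟨⟨K, h1⟩, fun ε hε => ⟨|K| * (1 + 3 / ε) ^ 3, fun N F f hN hF hf r a b ha hab => ?_⟩⟩
  have hF0 : 0 < F := by linarith
  have hN0 : 0 < N := by linarith
  have hF1 : 1 ≤ F := by linarith
  have hV : 0 < F ^ ε := Real.rpow_pos_of_pos hF0 ε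
  refine (h1 N F f hN hF hf r a b (F ^ ε) ha hab hV).trans (ENNReal.ofReal_le_ofReal ?_)
  have h2 : 1 + Real.log N ≤ (1 + 3 / ε) * F ^ (ε / 3) := by
    have h3 : Real.log N ≤ Real.log F := Real.log_le_log hN0 hF
    have h4 : Real.log F ≤ F ^ (ε / 3) / (ε / 3) := Real.log_le_rpow_div hF0.le (by positivity)
    have h5 : 1 ≤ F ^ (ε / 3) := Real.one_le_rpow hF1 (by positivity)
    have h6 : F ^ (ε / 3) / (ε / 3) = 3 / ε * F ^ (ε / 3) := by
      field_simp
    nlinarith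
  have h0 : 0 ≤ 1 + Real.log N := by
    have := Real.log_nonneg (show (1:ℝ) ≤ N by linarith)
    linarith
  have h7 : (1 + Real.log N) ^ 3 ≤ (1 + 3 / ε) ^ 3 * F ^ ε := by
    have h8 := pow_le_pow_left₀ h0 h2 3
    rw [mul_pow, ← Real.rpow_natCast (F ^ (ε / 3)) 3, ← Real.rpow_mul hF0.le] at h8
    refine h8.trans (le_of_eq ?_)
    congr 2
    push_cast
    ring
  have h9 : 0 ≤ (b - a) + N ^ 2 / F := by
    have : 0 ≤ N ^ 2 / F := by positivity
    linarith
  have h10 : F ^ (-ε) = F ^ ε / (F ^ ε) ^ 2 := by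
    rw [Real.rpow_neg hF0.le]
    field_simp
  have h11 : K * (1 + Real.log N) ^ 3 * ((b - a) + N ^ 2 / F) / (F ^ ε) ^ 2 ≤
      |K| * ((1 + 3 / ε) ^ 3 * F ^ ε) * ((b - a) + N ^ 2 / F) / (F ^ ε) ^ 2 := by
    refine div_le_div_of_nonneg_right (mul_le_mul_of_nonneg_right ?_ h9) (by positivity)
    exact mul_le_mul (le_abs_self K) h7 (by positivity) (abs_nonneg K)
  refine h11.trans (le_of_eq ?_)
  rw [h10]
  ring

end Pool.Agent.Results.MP_493793_nt.TranslatesOfAdmissible
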