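import Pool.Agent.V11290.VW.G3

/-!
# Exponential sums `α f(n) + ξ n`, `f` arbitrary admissible, at typical amplitudes `α`, for ALL linear twists `ξ` at once

Let `μ` be ANY probability measure on the line with `|μ^(ξ)| ≤ C |ξ| ^ (-σ)`, where `σ > 0` may be arbitrarily small (such
`μ` live on null sets of arbitrarily small dimension). For all admissible functions `f` (only the lower bound for `|f''|` is
used) the sums of `a_n e(α f(n) + ξ n)` over all intervals of integers in `[N, 2N]` are at most `2 N^(3/4) F^ε` for all real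
`ξ` simultaneously, for all amplitudes `α` outside a set of small `μ`-measure, if `F ≥ N ^ (1 / σ)`; there is a weaker bound
for all `F ≥ N`.
-/

set_option autoImplicit false

namespace Pool.Agent.Results.MP_493793_nt.UniformLinearTwists

open Finset MeasureTheory

/-- `f` is admissible at scale `N` with parameter `F`, for the constants `c j`, `C j`, as in the problem. -/
def Admissible (c C : ℕ → ℝ) (N F : ℝ) (f : ℝ → ℝ) : Prop :=
  ContDiffOn ℝ (⊤ : ℕ∞) f (Set.Icc N (2 * N)) ∧ ∀ j : ℕ, ∀ x ∈ Set.Icc N (2 * N),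
    c j * F / N ^ j ≤ |iteratedDerivWithin j f (Set.Icc N (2 * N)) x| ∧
    |iteratedDerivWithin j f (Set.Icc N (2 * N)) x| ≤ C j * F / N ^ j

/-- `f` is continuous on `[N, 2N]` and twice differentiable in the interior, with `|f''(x)| ≥ c F / N ^ 2` there. -/
def Curved (c N F : ℝ) (f : ℝ → ℝ) : Prop :=
  ContinuousOn f (Set.Icc N (2 * N)) ∧ ∀ x ∈ Set.Ioo N (2 * N),
    DifferentiableAt ℝ f x ∧ DifferentiableAt ℝ (deriv f) x ∧ c * F / N ^ 2 ≤ |deriv (deriv f) x|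

/-- the sum of `a_n e(α f(n) + ξ n)` over `N1 ≤ n ≤ N2` -/
noncomputable def S (a : ℕ → ℂ) (f : ℝ → ℝ) (α ξ : ℝ) (N1 N2 : ℕ) : ℂ :=
  ∑ n ∈ Icc N1 N2, a n * Complex.exp (2 * Real.pi * Complex.I * ((α * f n + ξ * n : ℝ) : ℂ))

/-- **Theorem.** Let `μ` be a probability measure on the line with `|μ^(ξ)| ≤ C |ξ| ^ (-σ)` for `|ξ| ≥ 1`, `0 < σ < 1`.

(0) Admissible functions are curved, with `c = c 2`.

(1) For every `c > 0` there is `K` such that for all `F ≥ N ≥ 2`, all curved `f`, all complex `|a_n| ≤ 1` and all `V > 0`, the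
set of the `α` for which, for SOME real `ξ`, some sum of `a_n e(α f(n) + ξ n)` over an interval of integers in `[N, 2N]` is
larger than `N^(3/4) V` has `μ`-measure at most `K (1 + log N)⁴ (1 + N F^(-σ)) / V⁴`.

(2) Let for every `j` in a set `J` numbers `F j ≥ N j ≥ 2`, a curved function `f j` and complex `|a_n| ≤ 1` be given, such that
the sum of the `(F j) ^ (-κ)` converges for all `κ > 0`. For `μ`-almost every `α`, all `ε > 0` and all but finitely many `j`,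
for ALL real `ξ` ALL sums of `a_n e(α f(n) + ξ n)` over intervals of integers in `[N, 2N]` are at most
`(N^(3/4) + N F^(-σ/4)) F^ε`, and at most `2 N^(3/4) F^ε` if `F ≥ N^(1/σ)`. -/
theorem result (μ : Measure ℝ) [IsProbabilityMeasure μ] (C σ : ℝ) (hσ0 : 0 < σ) (hσ1 : σ < 1)
    (hdec : ∀ ξ : ℝ, 1 ≤ |ξ| → ‖charFun μ ξ‖ ≤ C * |ξ| ^ (-σ)) :
    (∀ (c C' : ℕ → ℝ) (N F : ℝ) (f : ℝ → ℝ), 2 ≤ N → Admissible c C' N F f → Curved (c 2) N F f) ∧
    ∀ c : ℝ, 0 < c →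
      (∃ K : ℝ, ∀ (N F : ℝ) (f : ℝ → ℝ), 2 ≤ N → N ≤ F → Curved c N F f → ∀ a : ℕ → ℂ, (∀ n, ‖a n‖ ≤ 1) → ∀ V : ℝ, 0 < V →
        μ {α : ℝ | ∃ (ξ : ℝ) (N1 N2 : ℕ), N ≤ N1 ∧ (N2 : ℝ) ≤ 2 * N ∧ N ^ (3 / 4 : ℝ) * V < ‖S a f α ξ N1 N2‖} ≤
          ENNReal.ofReal (K * (1 + Real.log N) ^ 4 * (1 + N * F ^ (-σ)) / V ^ 4)) ∧
      ∀ (J : Type) (N F : J → ℝ) (f : J → ℝ → ℝ) (a : J → ℕ → ℂ), (∀ j, 2 ≤ N j) → (∀ j, N j ≤ F j) →
        (∀ j, Curved c (N j) (F j) (f j)) → (∀ j n, ‖a j n‖ ≤ 1) →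
        (∀ κ : ℝ, 0 < κ → Summable fun j => (F j) ^ (-κ)) →
        ∀ᵐ α ∂μ, ∀ ε : ℝ, 0 < ε →
          {j | ¬ ∀ (ξ : ℝ) (N1 N2 : ℕ), N j ≤ N1 → (N2 : ℝ) ≤ 2 * N j →
            ‖S (a j) (f j) α ξ N1 N2‖ ≤ (N j ^ (3 / 4 : ℝ) + N j * F j ^ (-(σ / 4))) * F j ^ ε ∧
            (N j ^ (1 / σ) ≤ F j → ‖S (a j) (f j) α ξ N1 N2‖ ≤ 2 * N j ^ (3 / 4 : ℝ) * F j ^ ε)}.Finite := by
  have hgap : ∀ (c N F : ℝ) (f : ℝ → ℝ), Curved c N F f → ∀ x y h : ℝ, N ≤ x → x < y → 0 < h → y + h ≤ 2 * N →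
      c * F / N ^ 2 * (h * (y - x)) ≤ |(f (x + h) - f x) - (f (y + h) - f y)| :=
    fun c N F f hf x y h hx hxy hh hy => Pool.Agent.V11290.VW.G.mvt2 N (c * F / N ^ 2) f hf.1 hf.2 x y h hx hxy hh hy
  refine ⟨?_, fun c hc => ?_⟩
  · intro c C' N F f hN hf
    refine ⟨hf.1.continuousOn, fun x hx => ?_⟩
    have hnhds : Set.Icc N (2 * N) ∈ nhds x := Icc_mem_nhds hx.1 hx.2
    have h1 : ContDiffAt ℝ (⊤ : ℕ∞) f x := hf.1.contDiffAt hnhds
    have hd : DifferentiableAt ℝ f x := h1.differentiableAt (by simp)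
    have h2' : ContDiffAt ℝ (2 : ℕ) f x := (contDiffAt_infty.1 h1) 2
    have h3 : ContDiffAt ℝ (1 : ℕ) (deriv f) x := by
      have h4 : ContDiffAt ℝ (1 : ℕ) (fderiv ℝ f) x := by
        refine h2'.fderiv_right ?_
        norm_num
      have h5 : deriv f = fun y => fderiv ℝ f y 1 := by
        funext y
        exact (fderiv_apply_one_eq_deriv).symm
      rw [h5]
      exact h4.clm_apply contDiffAt_const
    have hd2 : DifferentiableAt ℝ (deriv f) x := h3.differentiableAt (by simp)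
    refine ⟨hd, hd2, ?_⟩
    have h2 := (hf.2 2 x ⟨hx.1.le, hx.2.le⟩).1
    have h5 : iteratedDerivWithin 2 f (Set.Icc N (2 * N)) x = deriv (deriv f) x := by
      rw [iteratedDerivWithin_eq_iteratedDeriv (uniqueDiffOn_Icc (by linarith)) h2' ⟨hx.1.le, hx.2.le⟩, iteratedDeriv_succ, iteratedDeriv_one]
    rw [h5] at h2
    exact h2
  obtain ⟨K, hK⟩ : ∃ K : ℝ, K = 810000 * (640 + 256 * (8 * Pool.Agent.V11290.VW.K₁ C σ / (1 - σ)) * c ^ (-σ)) := ⟨_, rfl⟩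
  have hK0 : 0 ≤ K := by
    rw [hK]
    unfold Pool.Agent.V11290.VW.K₁
    have h1 : 0 < 1 - σ := by linarith
    have := Real.pi_pos
    positivity
  have hmeas : ∀ (N F : ℝ) (f : ℝ → ℝ), 2 ≤ N → N ≤ F → Curved c N F f → ∀ a : ℕ → ℂ, (∀ n, ‖a n‖ ≤ 1) → ∀ V : ℝ, 0 < V →
        μ {α : ℝ | ∃ (ξ : ℝ) (N1 N2 : ℕ), N ≤ N1 ∧ (N2 : ℝ) ≤ 2 * N ∧ N ^ (3 / 4 : ℝ) * V < ‖S a f α ξ N1 N2‖} ≤
          ENNReal.ofReal (K * (1 + Real.log N) ^ 4 * (1 + N * F ^ (-σ)) / V ^ 4) := by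
    intro N F f hN hF hf a ha V hV
    rw [hK]
    exact Pool.Agent.V11290.VW.G.unif_meas μ C σ hσ0 hσ1 hdec c hc N F hN (by linarith) f (hgap c N F f hf) a ha V hV
  refine ⟨⟨K, hmeas⟩, fun J N F f a hN hF hf ha hsum => ?_⟩
  have key : ∀ᵐ α ∂μ, ∀ i : ℕ, {j | ∃ (ξ : ℝ) (N1 N2 : ℕ), N j ≤ N1 ∧ (N2 : ℝ) ≤ 2 * N j ∧
      N j ^ (3 / 4 : ℝ) * ((1 + N j * F j ^ (-σ)) ^ (1 / 4 : ℝ) * F j ^ (1 / ((i : ℝ) + 1))) < ‖S (a j) (f j) α ξ N1 N2‖}.Finite := by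
    rw [ae_all_iff]
    intro i
    obtain ⟨e, he⟩ : ∃ e : ℝ, e = 1 / ((i : ℝ) + 1) := ⟨_, rfl⟩
    have he0 : 0 < e := by rw [he]; positivity
    rw [← he]
    obtain ⟨T, hT⟩ : ∃ T : J → Set ℝ, T = fun j => {α : ℝ | ∃ (ξ : ℝ) (N1 N2 : ℕ), N j ≤ N1 ∧ (N2 : ℝ) ≤ 2 * N j ∧
      N j ^ (3 / 4 : ℝ) * ((1 + N j * F j ^ (-σ)) ^ (1 / 4 : ℝ) * F j ^ e) < ‖S (a j) (f j) α ξ N1 N2‖} := ⟨_, rfl⟩
    have hbound : ∀ j, μ (T j) ≤ ENNReal.ofReal (K * (1 + 2 / e) ^ 4 * F j ^ (-(2 * e))) := by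
      intro j
      have hNj := hN j
      have hFj := hF j
      have hF0 : 0 < F j := by linarith
      have hF1 : 1 ≤ F j := by linarith
      have hN0 : 0 < N j := by linarith
      have hX : 0 < 1 + N j * F j ^ (-σ) := by positivity
      have h1 := hmeas (N j) (F j) (f j) (hN j) (hF j) (hf j) (a j) (ha j) ((1 + N j * F j ^ (-σ)) ^ (1 / 4 : ℝ) * F j ^ e) (by positivity)
      rw [hT]
      refine h1.trans (ENNReal.ofReal_le_ofReal ?_)
      have hsq : ((1 + N j * F j ^ (-σ)) ^ (1 / 4 : ℝ) * F j ^ e) ^ 4 = (1 + N j * F j ^ (-σ)) * F j ^ (4 * e) := by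
        rw [mul_pow, ← Real.rpow_natCast ((1 + N j * F j ^ (-σ)) ^ (1 / 4 : ℝ)), ← Real.rpow_mul hX.le,
          ← Real.rpow_natCast (F j ^ e), ← Real.rpow_mul hF0.le]
        norm_num
        left
        congr 1
        ring
      rw [hsq]
      have hlog : 1 + Real.log (N j) ≤ (1 + 2 / e) * F j ^ (e / 2) := by
        have h3 : Real.log (N j) ≤ Real.log (F j) := Real.log_le_log hN0 hFj
        have h4 : Real.log (F j) ≤ F j ^ (e / 2) / (e / 2) := Real.log_le_rpow_div hF0.le (by positivity)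
        have h5 : 1 ≤ F j ^ (e / 2) := Real.one_le_rpow hF1 (by positivity)
        have h6 : F j ^ (e / 2) / (e / 2) = 2 / e * F j ^ (e / 2) := by field_simp
        rw [h6] at h4
        linarith
      have hlog0 : 0 ≤ 1 + Real.log (N j) := by
        have := Real.log_nonneg (show (1 : ℝ) ≤ N j by linarith)
        linarith
      have hlog2 : (1 + Real.log (N j)) ^ 4 ≤ (1 + 2 / e) ^ 4 * F j ^ (2 * e) := by
        calc (1 + Real.log (N j)) ^ 4 ≤ ((1 + 2 / e) * F j ^ (e / 2)) ^ 4 := pow_le_pow_left₀ hlog0 hlog 4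
          _ = (1 + 2 / e) ^ 4 * (F j ^ (e / 2)) ^ 4 := by ring
          _ = _ := by
            rw [← Real.rpow_natCast (F j ^ (e / 2)), ← Real.rpow_mul hF0.le]
            congr 2
            push_cast
            ring
      rw [div_le_iff₀ (by positivity)]
      have h8 : F j ^ (-(2 * e)) * F j ^ (4 * e) = F j ^ (2 * e) := by
        rw [← Real.rpow_add hF0]
        congr 1
        ring
      calc K * (1 + Real.log (N j)) ^ 4 * (1 + N j * F j ^ (-σ)) ≤ K * ((1 + 2 / e) ^ 4 * F j ^ (2 * e)) * (1 + N j * F j ^ (-σ)) := by gcongr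
        _ = K * (1 + 2 / e) ^ 4 * (F j ^ (-(2 * e)) * F j ^ (4 * e)) * (1 + N j * F j ^ (-σ)) := by rw [h8]; ring
        _ = _ := by ring
    have hsumm : ∑' j, μ (T j) ≠ ⊤ :=
      ne_top_of_le_ne_top ((hsum (2 * e) (by positivity)).mul_left _).tsum_ofReal_ne_top (ENNReal.tsum_le_tsum hbound)
    have hcount : Countable J := by
      have h3 := (hsum 1 one_pos).countable_support
      have h4 : Function.support (fun j => (F j : ℝ) ^ (-(1 : ℝ))) = Set.univ := by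
        ext j
        simp only [Function.mem_support, Set.mem_univ, iff_true]
        have : (0 : ℝ) < F j := by linarith [hN j, hF j]
        positivity
      rw [h4] at h3
      exact Set.countable_univ_iff.1 h3
    filter_upwards [ae_finite_setOfPred_mem hsumm] with α hα
    refine hα.subset ?_
    intro j hj
    show α ∈ T j
    rw [hT]
    exact hj
  filter_upwards [key] with α hα ε hε
  obtain ⟨i, hi⟩ := exists_nat_one_div_lt hε
  refine (hα i).subset ?_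
  intro j hj
  rw [Set.mem_ofPred_eq] at hj ⊢
  by_contra hcon
  apply hj
  intro ξ N1 N2 h1 h2
  have h3 : ‖S (a j) (f j) α ξ N1 N2‖ ≤ N j ^ (3 / 4 : ℝ) * ((1 + N j * F j ^ (-σ)) ^ (1 / 4 : ℝ) * F j ^ (1 / ((i : ℝ) + 1))) := by
    by_contra h
    rw [not_le] at h
    exact hcon ⟨ξ, N1, N2, h1, h2, h⟩
  have hNj := hN j
  have hFj := hF j
  have hF0 : 0 < F j := by linarith
  have hF1 : 1 ≤ F j := by linarith
  have hN0 : 0 < N j := by linarith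
  have hX0 : 0 ≤ N j * F j ^ (-σ) := by positivity
  have h4 : F j ^ (1 / ((i : ℝ) + 1)) ≤ F j ^ ε := Real.rpow_le_rpow_of_exponent_le hF1 hi.le
  have h5 : (1 + N j * F j ^ (-σ)) ^ (1 / 4 : ℝ) ≤ 1 + N j ^ (1 / 4 : ℝ) * F j ^ (-(σ / 4)) := by
    have h6 : (1 + N j * F j ^ (-σ)) ^ (1 / 4 : ℝ) ≤ (1 : ℝ) ^ (1 / 4 : ℝ) + (N j * F j ^ (-σ)) ^ (1 / 4 : ℝ) :=
      Real.rpow_add_le_add_rpow zero_le_one hX0 (by norm_num) (by norm_num)
    rw [Real.one_rpow, Real.mul_rpow hN0.le (by positivity), ← Real.rpow_mul hF0.le, show -σ * (1 / 4) = -(σ / 4) by ring] at h6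
    exact h6
  have h7 : N j ^ (3 / 4 : ℝ) * N j ^ (1 / 4 : ℝ) = N j := by
    rw [← Real.rpow_add hN0]
    norm_num
  have h8 : ‖S (a j) (f j) α ξ N1 N2‖ ≤ (N j ^ (3 / 4 : ℝ) + N j * F j ^ (-(σ / 4))) * F j ^ ε := by
    refine h3.trans ?_
    calc N j ^ (3 / 4 : ℝ) * ((1 + N j * F j ^ (-σ)) ^ (1 / 4 : ℝ) * F j ^ (1 / ((i : ℝ) + 1))) ≤
          N j ^ (3 / 4 : ℝ) * ((1 + N j ^ (1 / 4 : ℝ) * F j ^ (-(σ / 4))) * F j ^ ε) := by gcongr
      _ = (N j ^ (3 / 4 : ℝ) + (N j ^ (3 / 4 : ℝ) * N j ^ (1 / 4 : ℝ)) * F j ^ (-(σ / 4))) * F j ^ ε := by ring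
      _ = _ := by rw [h7]
  refine ⟨h8, fun hNF => h8.trans ?_⟩
  apply mul_le_mul_of_nonneg_right _ (by positivity)
  have h9 : F j ^ (-(σ / 4)) ≤ N j ^ (-(1 / 4) : ℝ) := by
    have h10 : F j ^ (-(σ / 4)) ≤ (N j ^ (1 / σ)) ^ (-(σ / 4)) := Real.rpow_le_rpow_of_nonpos (by positivity) hNF (by linarith)
    rw [← Real.rpow_mul hN0.le] at h10
    have h11 : 1 / σ * (-(σ / 4)) = -(1 / 4) := by field_simp
    rw [h11] at h10
    exact h10
  have h12 : N j * N j ^ (-(1 / 4) : ℝ) = N j ^ (3 / 4 : ℝ) := by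
    have h13 : N j ^ (1 : ℝ) * N j ^ (-(1 / 4) : ℝ) = N j ^ (3 / 4 : ℝ) := by
      rw [← Real.rpow_add hN0]
      norm_num
    rwa [Real.rpow_one] at h13
  have h14 := mul_le_mul_of_nonneg_left h9 hN0.le
  linarith

end Pool.Agent.Results.MP_493793_nt.UniformLinearTwists
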